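import Pool.Agent.H7.LP.Targets

/-!
# Countably many cosets of nodes (row CNC of lpg_modules)
-/

set_option autoImplicit false

open Set Filter Topology

namespace Pool.Agent.H7.LP

theorem pf_CNC (h1 : T_LAB) (h2 : T_OCI) : T_CNC := by
  intro G X _ _ _ _ _ L M _ Y S x q g₀ hg₀
  have hL := (h1 G).2.1 (L.R (S.k q)) (L.H (S.k q))
  have key : ∀ g h : G, S.Node x q g → h ∈ L.H (S.k q) →
      lab (L.R (S.k q)) (tr (h * g) (Y.C x)) = tr h (S.y q) := by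
    intro g h hg hh
    rw [tr_mul, hL _ (L.piece (S.k q)) h hh]
    congr 1
  obtain ⟨r, hr⟩ := h2 G (L.H (S.k q)) (L.piece (S.k q)).op
  have hex : ∀ i : ℕ, ∃ n : G, S.Node x q n ∧
      ((∃ g, S.Node x q g ∧ g * (r i)⁻¹ ∈ L.H (S.k q)) → n * (r i)⁻¹ ∈ L.H (S.k q)) := by
    intro i
    by_cases hi : ∃ g, S.Node x q g ∧ g * (r i)⁻¹ ∈ L.H (S.k q)
    · obtain ⟨g, hg, hgi⟩ := hi
      exact ⟨g, hg, fun _ => hgi⟩
    · exact ⟨g₀, hg₀, fun h => absurd h hi⟩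
  choose n hn hn' using hex
  set St' : Subgroup G := Stb (L.H (S.k q)) (S.y q) with hSt
  obtain ⟨U, hU, hUK⟩ := S.opn q
  have : SecondCountableTopology St' :=
    TopologicalSpace.Subtype.secondCountableTopology (fun g : G => g ∈ St')
  obtain ⟨d, hd⟩ := TopologicalSpace.exists_dense_seq St'
  refine ⟨fun j => (d (Nat.unpair j).2 : G) * n (Nat.unpair j).1, ?_, ?_⟩
  · intro j
    have h3 := (mem_Stb.1 (d (Nat.unpair j).2).2)
    change lab (L.R (S.k q)) (tr ((d (Nat.unpair j).2 : G) * n (Nat.unpair j).1) (Y.C x)) = S.y q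
    rw [key _ _ (hn _) h3.1, h3.2]
  · intro g hg
    obtain ⟨i, hi⟩ := hr g
    have h4 := hn' i ⟨g, hg, hi⟩
    have h5 : g * (n i)⁻¹ ∈ L.H (S.k q) := by
      have := (L.H (S.k q)).mul_mem hi ((L.H (S.k q)).inv_mem h4)
      simpa [mul_assoc] using this
    have h6 : g * (n i)⁻¹ ∈ St' := by
      rw [hSt, mem_Stb]
      refine ⟨h5, ?_⟩
      have h7 := key (n i) (g * (n i)⁻¹) (hn i) h5
      rw [inv_mul_cancel_right] at h7
      rw [← h7]
      exact hg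
    have h8 : {s : St' | g * (n i)⁻¹ * (s : G)⁻¹ ∈ U} ∈ 𝓝 (⟨g * (n i)⁻¹, h6⟩ : St') := by
      have hc : Continuous fun s : St' => g * (n i)⁻¹ * (s : G)⁻¹ := by fun_prop
      refine hc.continuousAt.preimage_mem_nhds ?_
      simpa using hU
    have h9 : ∃ j : ℕ, g * (n i)⁻¹ * (d j : G)⁻¹ ∈ U := by
      obtain ⟨s, ⟨j, hj⟩, hs⟩ := hd.inter_nhds_nonempty h8
      exact ⟨j, by rw [hj]; exact hs⟩
    obtain ⟨j, hj⟩ := h9
    refine ⟨Nat.pair i j, ?_⟩
    have h10 := hUK _ (St'.mul_mem h6 (St'.inv_mem (d j).2)) hj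
    simpa [Nat.unpair_pair, mul_assoc] using h10

end Pool.Agent.H7.LP
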